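import Pool.Agent.helper64.OT.SpecW

set_option autoImplicit false

namespace Pool.Agent.OT

open Finset Polynomial Pool.Agent.helper82.Weil Pool.Agent.helper82.KL

theorem RRE : RRE_stmt := by
  intro p _ K _ _ f g hf hs
  have h1 : (f.map (algebraMap (ZMod p) K)).natDegree = f.natDegree :=
    natDegree_map_eq_of_injective (algebraMap (ZMod p) K).injective f
  have h2 := resultant_eq_prod_eval (f.map (algebraMap (ZMod p) K)) (g.map (algebraMap (ZMod p) K)) g.natDegree
    natDegree_map_le hs
  rw [h1, resultant_map_map, (hf.map (algebraMap (ZMod p) K)).leadingCoeff, one_pow, one_mul] at h2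
  rw [h2]
  refine congrArg Multiset.prod (Multiset.map_congr rfl fun x _ => ?_)
  rw [eval_map_algebraMap]

end Pool.Agent.OT
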